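import Pool.Graph.R_seed8.R486.TC.Cmp
import Pool.Graph.R_seed8.R486.TC.Dens

/-!
# The corank of `N = 3 m n³` is a primitive recursive function of `N`
-/

set_option autoImplicit false
set_option linter.unusedVariables false

open scoped Classical

namespace Pool.Agent.H519.G3

open Pool.Agent.R486.TC (ball bex imp pdvd peq pne pmul pcube psq pmod pprime pcoprime CubB cub_iff
  pcub cop_iff cf_unique)

/-- squarefree `m > 1` with all prime factors `1` modulo `3` -/
def Class (m : ℕ) : Prop := 1 < m ∧ Squarefree m ∧ ∀ p : ℕ, p.Prime → p ∣ m → p % 3 = 1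

/-- the factorizations `D = d₀ d₁ d₂` into coprime numbers such that `d_{c+1} d_{c+2}²` is a cube modulo
the primes which divide `d_c` -/
def splittings (D : ℕ) : Set (ZMod 3 → ℕ) :=
  {d | ∏ c, d c = D ∧ (∀ c c', c ≠ c' → Nat.Coprime (d c) (d c')) ∧
    ∀ (c : ZMod 3) (p : ℕ), p.Prime → p ∣ d c →
      ∃ x : ℤ, (p : ℤ) ∣ (d (c + 1) : ℤ) * (d (c + 2) : ℤ) ^ 2 - x ^ 3}

/-- `N = 3 m n³` -/
def Family (N : ℕ) : Prop := ∃ m n : ℕ, N = 3 * m * n ^ 3 ∧ n ≠ 0 ∧ Class m

/-- `N = 3 m n³`, and `3 m` has `3 ^ (r + 1)` splittings -/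
def Corank (N r : ℕ) : Prop :=
  ∃ m n : ℕ, N = 3 * m * n ^ 3 ∧ n ≠ 0 ∧ Class m ∧ (splittings (3 * m)).ncard = 3 ^ (r + 1)

/-! ### counting -/

theorem pcount {α : Type} [Primcodable α] {f : α → ℕ} (hf : Primrec f) {R : ℕ → α → Prop}
    (hR : PrimrecRel R) :
    Primrec (fun a => ((Finset.range (f a)).filter fun x => R x a).card) := by
  have h : Primrec₂ (fun (a : α) (z : ℕ × ℕ) => if R z.1 a then z.2 + 1 else z.2) := by
    refine Primrec.ite (c := fun w : α × (ℕ × ℕ) => R w.2.1 w.1) ?_ ?_ ?_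
    · exact hR.comp (Primrec.fst.comp Primrec.snd) Primrec.fst
    · exact Primrec.succ.comp (Primrec.snd.comp Primrec.snd)
    · exact Primrec.snd.comp Primrec.snd
  refine (Primrec.nat_rec' hf (Primrec.const 0) h).of_eq fun a => ?_
  induction f a with
  | zero => simp
  | succ n ih =>
    rw [Finset.range_add_one, Finset.filter_insert]
    split_ifs with h1
    · rw [Finset.card_insert_of_notMem (by simp), ← ih]
      simp only [if_pos h1]
    · rw [← ih]
      simp only [if_neg h1]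

theorem ppow {α : Type} [Primcodable α] {f g : α → ℕ} (hf : Primrec f) (hg : Primrec g) :
    Primrec (fun a => f a ^ g a) :=
  (Primrec₂.unpaired'.1 Nat.Primrec.pow).comp hf hg

/-! ### the class -/

/-- the class with bounded quantifiers -/
def ClassB (m : ℕ) : Prop :=
  ¬ m < 2 ∧ (∀ p < m + 1, (p.Prime → ¬ p * p ∣ m)) ∧ ∀ p < m + 1, (p.Prime → p ∣ m → p % 3 = 1)

theorem classB_iff (m : ℕ) : ClassB m ↔ Class m := by
  unfold ClassB Class
  constructor
  · rintro ⟨h1, h2, h3⟩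
    have hm : 0 < m := by omega
    refine ⟨by omega, ?_, fun p hp hd => h3 p (Nat.lt_succ_of_le (Nat.le_of_dvd hm hd)) hp hd⟩
    rw [Nat.squarefree_iff_prime_squarefree]
    intro p hp hd
    exact h2 p (Nat.lt_succ_of_le (Nat.le_of_dvd hm ((Dvd.intro _ rfl).trans hd))) hp hd
  · rintro ⟨h1, h2, h3⟩
    refine ⟨by omega, fun p _ hp hd => ?_, fun p _ hp hd => h3 p hp hd⟩
    exact hp.one_lt.ne' (Nat.isUnit_iff.1 (h2 p hd))

theorem pclass : PrimrecPred Class := by
  refine PrimrecPred.of_eq (p := ClassB) ?_ classB_iff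
  have hid : Primrec (fun m : ℕ => m) := Primrec.id
  refine (Primrec.nat_lt.comp hid (Primrec.const 2)).not.and
    ((ball (Primrec.succ.comp hid) ?_).and (ball (Primrec.succ.comp hid) ?_))
  · exact imp (pprime Primrec.fst) (pdvd (pmul Primrec.fst Primrec.fst) Primrec.snd).not
  · exact imp (pprime Primrec.fst) (imp (pdvd Primrec.fst Primrec.snd)
      (peq (pmod Primrec.fst (Primrec.const 3)) (Primrec.const 1)))

/-! ### splittings -/

/-- a splitting, with bounded quantifiers -/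
def SB (a b c D : ℕ) : Prop :=
  a * b * c = D ∧
    (∀ p < a + b + 1, p.Prime → ¬ (p ∣ a ∧ p ∣ b)) ∧
    (∀ p < b + c + 1, p.Prime → ¬ (p ∣ b ∧ p ∣ c)) ∧
    (∀ p < a + c + 1, p.Prime → ¬ (p ∣ a ∧ p ∣ c)) ∧
    CubB a b c ∧ CubB b c a ∧ CubB c a b

theorem pSB {α : Type} [Primcodable α] {a b c D : α → ℕ} (ha : Primrec a) (hb : Primrec b)
    (hc : Primrec c) (hD : Primrec D) : PrimrecPred fun x => SB (a x) (b x) (c x) (D x) :=
  (peq (pmul (pmul ha hb) hc) hD).and ((pcoprime ha hb).and ((pcoprime hb hc).and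
    ((pcoprime ha hc).and ((pcub ha hb hc).and ((pcub hb hc ha).and (pcub hc ha hb))))))

lemma prod3 (d : ZMod 3 → ℕ) : ∏ c, d c = d 0 * d 1 * d 2 := by
  have : (Finset.univ : Finset (ZMod 3)) = {0, 1, 2} := by decide
  rw [this, Finset.prod_insert (by decide), Finset.prod_insert (by decide),
    Finset.prod_singleton, mul_assoc]

theorem sb_iff {D : ℕ} (hD : D ≠ 0) (d : ZMod 3 → ℕ) :
    SB (d 0) (d 1) (d 2) D ↔ d ∈ splittings D := by
  constructor
  · rintro ⟨h0, h1, h2, h3, h4, h5, h6⟩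
    have ha : d 0 ≠ 0 := by intro h; apply hD; rw [← h0, h]; ring
    have hb : d 1 ≠ 0 := by intro h; apply hD; rw [← h0, h]; ring
    have hc : d 2 ≠ 0 := by intro h; apply hD; rw [← h0, h]; ring
    have c1 := (cop_iff ha).1 h1
    have c2 := (cop_iff hb).1 h2
    have c3 := (cop_iff ha).1 h3
    refine ⟨by rw [prod3]; exact h0, ?_, ?_⟩
    · intro i j hij
      fin_cases i <;> fin_cases j
      · exact absurd rfl hij
      · exact c1
      · exact c3
      · exact c1.symm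
      · exact absurd rfl hij
      · exact c2
      · exact c3.symm
      · exact c2.symm
      · exact absurd rfl hij
    · intro i p hp hd
      fin_cases i
      · exact (cub_iff ha).1 h4 p hp hd
      · exact (cub_iff hb).1 h5 p hp hd
      · exact (cub_iff hc).1 h6 p hp hd
  · rintro ⟨hprod, hcop, hcub⟩
    have hne : ∀ c, d c ≠ 0 := by
      intro c h0
      apply hD
      rw [← hprod]
      exact Finset.prod_eq_zero (Finset.mem_univ c) h0
    exact ⟨by rw [← prod3]; exact hprod,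
      (cop_iff (hne 0)).2 (hcop 0 1 (by decide)), (cop_iff (hne 1)).2 (hcop 1 2 (by decide)),
      (cop_iff (hne 0)).2 (hcop 0 2 (by decide)),
      (cub_iff (hne 0)).2 (fun p hp hd => hcub 0 p hp hd),
      (cub_iff (hne 1)).2 (fun p hp hd => hcub 1 p hp hd),
      (cub_iff (hne 2)).2 (fun p hp hd => hcub 2 p hp hd)⟩

/-- the bound for the codes -/
def bd (D : ℕ) : ℕ := ((D + 1) * (D + 1) + D + 1) * ((D + 1) * (D + 1) + D + 1)

/-- the code of a triple -/
def enc (d : ZMod 3 → ℕ) : ℕ := Nat.pair (d 0) (Nat.pair (d 1) (d 2))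

lemma enc_inj : Function.Injective enc := by
  intro d d' h
  unfold enc at h
  rw [Nat.pair_eq_pair, Nat.pair_eq_pair] at h
  funext i
  fin_cases i
  · exact h.1
  · exact h.2.1
  · exact h.2.2

lemma enc_lt {D : ℕ} {d : ZMod 3 → ℕ} (h : ∀ c, d c < D + 1) : enc d < bd D := by
  have h1 : Nat.pair (d 1) (d 2) < (D + 1) * (D + 1) := by
    have h2 := Nat.pair_lt_max_add_one_sq (d 1) (d 2)
    have h3 : max (d 1) (d 2) + 1 ≤ D + 1 := by
      have := h 1
      have := h 2
      omega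
    calc _ < (max (d 1) (d 2) + 1) ^ 2 := h2
      _ ≤ (D + 1) ^ 2 := Nat.pow_le_pow_left h3 2
      _ = _ := by ring
  have h2 := Nat.pair_lt_max_add_one_sq (d 0) (Nat.pair (d 1) (d 2))
  have h3 : max (d 0) (Nat.pair (d 1) (d 2)) + 1 ≤ (D + 1) * (D + 1) + D + 1 := by
    have := h 0
    have : max (d 0) (Nat.pair (d 1) (d 2)) ≤ (D + 1) * (D + 1) + D := by
      refine max_le ?_ ?_
      · have : 0 ≤ (D + 1) * (D + 1) := Nat.zero_le _
        omega
      · omega
    omega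
  calc _ < (max (d 0) (Nat.pair (d 1) (d 2)) + 1) ^ 2 := h2
    _ ≤ ((D + 1) * (D + 1) + D + 1) ^ 2 := Nat.pow_le_pow_left h3 2
    _ = _ := by rw [sq]; rfl

/-- the number of the splittings -/
noncomputable def num (D : ℕ) : ℕ :=
  ((Finset.range (bd D)).filter fun k =>
    SB k.unpair.1 k.unpair.2.unpair.1 k.unpair.2.unpair.2 D).card

theorem num_eq {D : ℕ} (hD : D ≠ 0) : num D = (splittings D).ncard := by
  have h : enc '' splittings D = ((Finset.range (bd D)).filter fun k =>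
      SB k.unpair.1 k.unpair.2.unpair.1 k.unpair.2.unpair.2 D : Finset ℕ) := by
    ext k
    simp only [Set.mem_image, Finset.coe_filter, Finset.mem_range, Set.mem_ofPred_eq]
    constructor
    · rintro ⟨d, hd, rfl⟩
      refine ⟨enc_lt fun c => ?_, ?_⟩
      · have : d c ∣ D := by rw [← hd.1]; exact Finset.dvd_prod_of_mem d (Finset.mem_univ c)
        exact Nat.lt_succ_of_le (Nat.le_of_dvd (Nat.pos_of_ne_zero hD) this)
      · unfold enc
        rw [Nat.unpair_pair, Nat.unpair_pair]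
        exact (sb_iff hD d).2 hd
    · rintro ⟨-, h2⟩
      refine ⟨![k.unpair.1, k.unpair.2.unpair.1, k.unpair.2.unpair.2], ?_, ?_⟩
      · exact (sb_iff hD _).1 h2
      · show Nat.pair k.unpair.1 (Nat.pair k.unpair.2.unpair.1 k.unpair.2.unpair.2) = k
        rw [Nat.pair_unpair, Nat.pair_unpair]
  rw [← Set.ncard_image_of_injective _ enc_inj, h, Set.ncard_coe_finset]
  rfl

theorem pnum : Primrec num := by
  unfold num
  have hs : Primrec (fun D : ℕ => (D + 1) * (D + 1) + D + 1) :=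
    Primrec.succ.comp (Primrec.nat_add.comp (pmul Primrec.succ Primrec.succ) Primrec.id)
  have hb : Primrec bd := pmul hs hs
  have hk : Primrec (fun a : ℕ × ℕ => a.1) := Primrec.fst
  have h1 : Primrec (fun a : ℕ × ℕ => a.1.unpair.1) := Primrec.fst.comp (Primrec.unpair.comp hk)
  have h2 : Primrec (fun a : ℕ × ℕ => a.1.unpair.2) := Primrec.snd.comp (Primrec.unpair.comp hk)
  have h3 : Primrec (fun a : ℕ × ℕ => a.1.unpair.2.unpair.1) :=
    Primrec.fst.comp (Primrec.unpair.comp h2)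
  have h4 : Primrec (fun a : ℕ × ℕ => a.1.unpair.2.unpair.2) :=
    Primrec.snd.comp (Primrec.unpair.comp h2)
  exact pcount (R := fun k D => SB k.unpair.1 k.unpair.2.unpair.1 k.unpair.2.unpair.2 D) hb
    (pSB h1 h3 h4 Primrec.snd)

/-! ### the corank -/

/-- the graph, with bounded quantifiers -/
def GB (N r : ℕ) : Prop := ∃ m < N + 1, ∃ n < N + 1,
  (N = 3 * m * n ^ 3 ∧ n ≠ 0 ∧ Class m ∧ num (3 * m) = 3 ^ (r + 1))

lemma bounds {N m n : ℕ} (h : N = 3 * m * n ^ 3) (hn : n ≠ 0) (hm : m ≠ 0) :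
    m < N + 1 ∧ n < N + 1 ∧ 3 * m ≤ N := by
  have h1 : 1 ≤ n := Nat.one_le_iff_ne_zero.2 hn
  have h2 : 1 ≤ m := Nat.one_le_iff_ne_zero.2 hm
  have e1 : 1 ≤ n ^ 3 := Nat.one_le_pow _ _ h1
  have e2 : n ≤ n ^ 3 := Nat.le_self_pow (by norm_num) n
  refine ⟨?_, ?_, ?_⟩
  · rw [h]; nlinarith
  · rw [h]; nlinarith
  · rw [h]; nlinarith

theorem gb_iff (N r : ℕ) : GB N r ↔ Corank N r := by
  constructor
  · rintro ⟨m, -, n, -, h1, h2, h3, h4⟩
    have h5 := h3.1
    rw [num_eq (by omega)] at h4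
    exact ⟨m, n, h1, h2, h3, h4⟩
  · rintro ⟨m, n, h1, h2, h3, h4⟩
    have h5 := h3.1
    obtain ⟨b1, b2, -⟩ := bounds h1 h2 (by omega)
    rw [← num_eq (by omega)] at h4
    exact ⟨m, b1, n, b2, h1, h2, h3, h4⟩

theorem pcorank : PrimrecRel Corank := by
  have h : PrimrecPred (fun a : ℕ × ℕ => GB a.1 a.2) := by
    refine bex (f := fun a : ℕ × ℕ => a.1 + 1) (Primrec.succ.comp Primrec.fst) ?_
    refine bex (f := fun a : ℕ × (ℕ × ℕ) => a.2.1 + 1)
      (Primrec.succ.comp (Primrec.fst.comp Primrec.snd)) ?_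
    have hn : Primrec (fun a : ℕ × (ℕ × (ℕ × ℕ)) => a.1) := Primrec.fst
    have hm : Primrec (fun a : ℕ × (ℕ × (ℕ × ℕ)) => a.2.1) := Primrec.fst.comp Primrec.snd
    have hN : Primrec (fun a : ℕ × (ℕ × (ℕ × ℕ)) => a.2.2.1) :=
      Primrec.fst.comp (Primrec.snd.comp Primrec.snd)
    have hr : Primrec (fun a : ℕ × (ℕ × (ℕ × ℕ)) => a.2.2.2) :=
      Primrec.snd.comp (Primrec.snd.comp Primrec.snd)
    have h3 := pmul (Primrec.const (α := ℕ × (ℕ × (ℕ × ℕ))) 3) hm
    exact (peq hN (pmul h3 (pcube hn))).and ((pne hn (Primrec.const 0)).and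
      ((pclass.comp hm).and (peq (pnum.comp h3) (ppow (Primrec.const 3) (Primrec.succ.comp hr)))))
  exact h.of_eq fun a => gb_iff a.1 a.2

theorem pfamily : PrimrecPred Family := by
  have h : PrimrecPred (fun N : ℕ => ∃ m < N + 1, ∃ n < N + 1,
      (N = 3 * m * n ^ 3 ∧ n ≠ 0 ∧ Class m)) := by
    refine bex (f := fun N : ℕ => N + 1) Primrec.succ ?_
    refine bex (f := fun a : ℕ × ℕ => a.2 + 1) (Primrec.succ.comp Primrec.snd) ?_
    have hn : Primrec (fun a : ℕ × (ℕ × ℕ) => a.1) := Primrec.fst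
    have hm : Primrec (fun a : ℕ × (ℕ × ℕ) => a.2.1) := Primrec.fst.comp Primrec.snd
    have hN : Primrec (fun a : ℕ × (ℕ × ℕ) => a.2.2) := Primrec.snd.comp Primrec.snd
    have h3 := pmul (Primrec.const (α := ℕ × (ℕ × ℕ)) 3) hm
    exact (peq hN (pmul h3 (pcube hn))).and ((pne hn (Primrec.const 0)).and (pclass.comp hm))
  refine h.of_eq fun N => ?_
  constructor
  · rintro ⟨m, -, n, -, h1, h2, h3⟩
    exact ⟨m, n, h1, h2, h3⟩
  · rintro ⟨m, n, h1, h2, h3⟩
    have h5 := h3.1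
    obtain ⟨b1, b2, -⟩ := bounds h1 h2 (by omega)
    exact ⟨m, b1, n, b2, h1, h2, h3⟩

/-- the corank as a function -/
noncomputable def R (N : ℕ) : ℕ := ((bd N) + 1).findGreatest (Corank N)

theorem pR : Primrec R := by
  have hs : Primrec (fun D : ℕ => (D + 1) * (D + 1) + D + 1) :=
    Primrec.succ.comp (Primrec.nat_add.comp (pmul Primrec.succ Primrec.succ) Primrec.id)
  have hb : Primrec (fun D => bd D + 1) := Primrec.succ.comp (pmul hs hs)
  exact Primrec.nat_findGreatest hb pcorank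

lemma bd_mono {a b : ℕ} (h : a ≤ b) : bd a ≤ bd b := by
  unfold bd
  gcongr

theorem corank_lt {N r : ℕ} (h : Corank N r) : r ≤ bd N := by
  obtain ⟨m, n, h1, h2, h3, h4⟩ := h
  have h5 := h3.1
  obtain ⟨-, -, b3⟩ := bounds h1 h2 (by omega)
  rw [← num_eq (by omega)] at h4
  have h6 : num (3 * m) ≤ bd (3 * m) := by
    unfold num
    refine (Finset.card_filter_le _ _).trans ?_
    rw [Finset.card_range]
  have h7 : r + 1 < 3 ^ (r + 1) := Nat.lt_pow_self (by norm_num)
  have h8 := bd_mono b3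
  omega

theorem R_spec {N r : ℕ} (h : Corank N r) : Corank N (R N) := by
  have h1 := corank_lt h
  exact Nat.findGreatest_spec (m := r) (by omega) h

end Pool.Agent.H519.G3
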