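import Pool.Graph.R_pool_sql_team_seeded_707910d6.T2H55.XY.Fin
import Pool.Agent.H519.G3.Grow

/-!
# Doubling and tripling on `X³ + Y³ = D`

* `-2 (X, Y) = (nX X Y, nY X Y)`; so for cube-free `D > 1`, `D ≠ 2 k³`, the group has no torsion.
* `3 (X, Y) = -ψ (u, v)` with `u = -X²/Y`, `v = -Y²/X`.
-/

set_option autoImplicit false
set_option linter.unusedVariables false

namespace Pool.Agent.H519.G3

open Pool.Agent.T2H55.XY

section
variable {D : ℚ}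

lemma slope_dbl (hD : D ≠ 0) {X Y : ℚ} (h : X ^ 3 + Y ^ 3 = D) (hne : X ≠ Y) :
    6 * D / ((X + Y) * (X - Y)) = 3 * (wx D X Y) ^ 2 / (2 * wy D X Y + 0) := by
  have hs := add_ne hD h
  have hd : X - Y ≠ 0 := sub_ne_zero.2 hne
  unfold wx wy
  rw [add_zero]
  field_simp
  norm_num

lemma two_wy (hD : D ≠ 0) {X Y : ℚ} (h : X ^ 3 + Y ^ 3 = D) (hne : X ≠ Y) :
    2 * wy D X Y + 0 ≠ 0 := by
  have hs := add_ne hD h
  have hd : X - Y ≠ 0 := sub_ne_zero.2 hne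
  unfold wy
  rw [add_zero]
  positivity

lemma nadd {X Y : ℚ} (hne : X ^ 3 - Y ^ 3 ≠ 0) :
    nX X Y + nY X Y = (X + Y) * (X - Y) ^ 3 / (X ^ 3 - Y ^ 3) := by
  unfold nX nY
  field_simp
  ring

lemma nsub {X Y : ℚ} (hne : X ^ 3 - Y ^ 3 ≠ 0) :
    nX X Y - nY X Y = (X ^ 4 + 2 * X ^ 3 * Y + 2 * X * Y ^ 3 + Y ^ 4) / (X ^ 3 - Y ^ 3) := by
  unfold nX nY
  field_simp
  ring

lemma cub_ne {X Y : ℚ} (hne : X ≠ Y) : X ^ 3 - Y ^ 3 ≠ 0 := by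
  intro h
  apply hne
  have h1 : X ^ 3 = Y ^ 3 := sub_eq_zero.1 h
  exact (Odd.strictMono_pow (R := ℚ) (by decide : Odd 3)).injective h1

/-- minus the double -/
lemma dbl_at (hD : D ≠ 0) {X Y : ℚ} (h : X ^ 3 + Y ^ 3 = D) (hne : X ≠ Y) {P : CP D}
    (hP : At P (wx D X Y) (wy D X Y)) :
    At (-(P + P)) (wx D (nX X Y) (nY X Y)) (wy D (nX X Y) (nY X Y)) := by
  have hs := add_ne hD h
  have hd : X - Y ≠ 0 := sub_ne_zero.2 hne
  have hc := cub_ne hne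
  have h1 := (hP.dbl (two_wy hD h hne) (slope_dbl hD h hne)).neg
  have e1 := nadd hc
  have e2 := nsub hc
  refine h1.congr ?_ ?_
  · unfold wx
    rw [e1, ← h]
    field_simp
    ring
  · unfold wx wy
    rw [e1, e2, ← h]
    field_simp
    ring

/-- the triple is minus the image of a point of the isogenous curve -/
lemma tri_at (hD : D ≠ 0) {X Y : ℚ} (h : X ^ 3 + Y ^ 3 = D) (hne : X ≠ Y) (hX : X ≠ 0)
    (hY : Y ≠ 0) {P : CP D} (hP : At P (wx D X Y) (wy D X Y)) :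
    At (P + P + P) (px (-X ^ 2 / Y) (-Y ^ 2 / X)) (-py (-X ^ 2 / Y) (-Y ^ 2 / X)) := by
  have hs := add_ne hD h
  have hd : X - Y ≠ 0 := sub_ne_zero.2 hne
  have h1 := hP.dbl (two_wy hD h hne) (slope_dbl hD h hne)
  have hdiff : (6 * D / ((X + Y) * (X - Y))) ^ 2 - 2 * wx D X Y - wx D X Y =
      36 * D * (X * Y) / ((X + Y) * (X - Y) ^ 2) := by
    unfold wx
    rw [← h]
    field_simp
    ring
  have hne2 : (6 * D / ((X + Y) * (X - Y))) ^ 2 - 2 * wx D X Y ≠ wx D X Y := by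
    rw [← sub_ne_zero, hdiff]
    positivity
  have hsl : -(6 * D / ((X + Y) * (X - Y))) - 2 * (X - Y) ^ 3 / (X * Y) =
      ((-(6 * D / ((X + Y) * (X - Y)) * ((6 * D / ((X + Y) * (X - Y))) ^ 2 - 3 * wx D X Y) +
        wy D X Y) - 0) - wy D X Y) /
        ((6 * D / ((X + Y) * (X - Y))) ^ 2 - 2 * wx D X Y - wx D X Y) := by
    rw [eq_div_iff (by rw [hdiff]; positivity), hdiff]
    unfold wx wy
    rw [← h]
    field_simp
    ring
  have h2 := h1.add hP hne2 hsl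
  refine h2.congr ?_ ?_
  · unfold px wx
    rw [← h]
    field_simp
    ring
  · unfold py wx wy
    rw [← h]
    field_simp
    ring

/-- `3 C(ℚ)` lies in the image of the isogeny -/
lemma tri_mem (hD : D ≠ 0) (hno : ∀ X Y : ℚ, X ^ 3 + Y ^ 3 = D → X ≠ 0 ∧ Y ≠ 0 ∧ X ≠ Y)
    (P : CP D) : P + P + P ∈ (psi hD).range := by
  rcases cases_at P with h | ⟨x, y, h⟩
  · rw [h, add_zero, add_zero]
    exact zero_mem _
  obtain ⟨X, Y, h1, h2, h3⟩ := pt_inv hD h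
  obtain ⟨hX, hY, hne⟩ := hno X Y h1
  have hP : At P (wx D X Y) (wy D X Y) := h.congr h2.symm h3.symm
  have h4 := tri_at hD h1 hne hX hY hP
  have e1 : (-X ^ 2 / Y) * (-Y ^ 2 / X) * (-X ^ 2 / Y + -Y ^ 2 / X) = -D := by
    rw [← h1]
    field_simp
    ring
  have hdE : D ^ 2 + 4 * 0 ≠ 0 := by
    have : D ^ 2 ≠ 0 := pow_ne_zero 2 hD
    rwa [mul_zero, add_zero]
  obtain ⟨Q, hQ⟩ : ∃ Q : EP D, At Q (-((-X ^ 2 / Y) * (-Y ^ 2 / X)))
      ((-X ^ 2 / Y) ^ 2 * (-Y ^ 2 / X)) := by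
    refine at_mk hdE ?_
    have e : D = -((-X ^ 2 / Y) * (-Y ^ 2 / X) * (-X ^ 2 / Y + -Y ^ 2 / X)) := by rw [e1]; ring
    rw [e]
    ring
  have hQi : Is Q (-X ^ 2 / Y) (-Y ^ 2 / X) := ⟨e1, hQ⟩
  have k := (psi_is hD hQi).neg
  refine ⟨-Q, ?_⟩
  rw [map_neg]
  exact (k.congr rfl (by ring)).ext h4

end

/-- the points of `X³ + Y³ = D` which belong to a set of points of the Weierstrass curve -/
lemma fin_xy {D : ℚ} (hD : D ≠ 0) {S : Set (CP D)} (hS : S.Finite) :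
    {z : ℚ × ℚ | z.1 ^ 3 + z.2 ^ 3 = D ∧ ∃ Q ∈ S, At Q (wx D z.1 z.2) (wy D z.1 z.2)}.Finite := by
  classical
  let φ : CP D → ℚ × ℚ := fun Q =>
    if h : ∃ z : ℚ × ℚ, z.1 ^ 3 + z.2 ^ 3 = D ∧ At Q (wx D z.1 z.2) (wy D z.1 z.2) then h.choose
    else 0
  refine (hS.image φ).subset ?_
  rintro z ⟨h1, Q, hQ, h2⟩
  refine ⟨Q, hQ, ?_⟩
  have h : ∃ z : ℚ × ℚ, z.1 ^ 3 + z.2 ^ 3 = D ∧ At Q (wx D z.1 z.2) (wy D z.1 z.2) := ⟨z, h1, h2⟩
  have e : φ Q = h.choose := dif_pos h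
  obtain ⟨g1, g2⟩ := h.choose_spec
  obtain ⟨k1, k2⟩ := g2.inj h2
  obtain ⟨m1, m2⟩ := wx_inj hD g1 h1 k1 k2
  rw [e]
  exact Prod.ext m1 m2

/-- **no torsion** -/
theorem torsion_free {D : ℕ} (hcf : ∀ p : ℕ, p.Prime → ¬ p ^ 3 ∣ D) (hD : 1 < D)
    (hno : ∀ X Y : ℚ, X ^ 3 + Y ^ 3 = D → X ≠ Y) {P : CP (D : ℚ)} {n : ℤ} (hn : n ≠ 0)
    (h : n • P = 0) : P = 0 := by
  by_contra hP
  have hDq : (D : ℚ) ≠ 0 := by exact_mod_cast (by omega : D ≠ 0)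
  have hfin : (AddSubgroup.zmultiples P : Set (CP (D : ℚ))).Finite := by
    have : IsOfFinAddOrder P := by
      rw [isOfFinAddOrder_iff_zsmul_eq_zero]
      exact ⟨n, hn, h⟩
    rw [← Set.finite_coe_iff]
    exact this.finite_zmultiples
  have hT := fin_xy hDq hfin
  have hunb : ∀ k : ℕ, ∃ z : ℚ × ℚ, (z.1 ^ 3 + z.2 ^ 3 = (D : ℚ) ∧
      ∃ Q ∈ (AddSubgroup.zmultiples P : Set (CP (D : ℚ))), At Q (wx D z.1 z.2) (wy D z.1 z.2)) ∧
      k ≤ z.1.den := by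
    intro k
    induction k with
    | zero =>
      rcases cases_at P with h | ⟨x, y, h⟩
      · exact absurd h hP
      obtain ⟨X, Y, h1, h2, h3⟩ := pt_inv hDq h
      exact ⟨(X, Y), ⟨h1, P, AddSubgroup.mem_zmultiples P, h.congr h2.symm h3.symm⟩, Nat.zero_le _⟩
    | succ k ih =>
      obtain ⟨⟨X, Y⟩, ⟨h1, Q, hQ, h2⟩, h3⟩ := ih
      have hne := hno X Y h1
      obtain ⟨g1, g2, g3⟩ := grow hcf hD h1 hne
      refine ⟨(nX X Y, nY X Y), ⟨g1, -(Q + Q), ?_, dbl_at hDq h1 hne h2⟩, ?_⟩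
      · exact neg_mem (add_mem hQ hQ)
      · have g3' : X.den < (nX X Y).den := g3
        have h3' : k ≤ X.den := h3
        show k + 1 ≤ (nX X Y).den
        omega
  obtain ⟨B, hB⟩ := (hT.image fun z => z.1.den).bddAbove
  obtain ⟨z, hz, hz'⟩ := hunb (B + 1)
  have := hB ⟨z, hz, rfl⟩
  simp only at this
  omega

end Pool.Agent.H519.G3
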