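import Pool.Agent.H519.G3.Mul
import Pool.Agent.H462.N9.Law.Pk

/-!
# The least number of generators of `C_A(ℚ)` for `A = ± 3 m n³`
-/

set_option autoImplicit false
set_option linter.unusedVariables false

namespace Pool.Agent.H519.G3

open Module Pool.Agent.T2H55.XY

/-- finite generation and rank of the target of an isogeny of degree three -/
theorem fg_rank {G H : Type} [AddCommGroup G] [AddCommGroup H] (ψ : G →+ H) [Module.Finite ℤ G]
    (h3 : ∀ x : H, x + x + x ∈ ψ.range) (htf : ∀ (x : H) (n : ℤ), n ≠ 0 → n • x = 0 → x = 0) :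
    Module.Finite ℤ H ∧ finrank ℤ H ≤ finrank ℤ G := by
  obtain ⟨L, hL⟩ : ∃ L, L = LinearMap.range ψ.toIntLinearMap := ⟨_, rfl⟩
  have hmem : ∀ x : H, ((3 : ℤ) • (LinearMap.id : H →ₗ[ℤ] H)) x ∈ L := by
    intro x
    obtain ⟨y, hy⟩ := h3 x
    rw [hL]
    refine ⟨y, ?_⟩
    rw [LinearMap.smul_apply, LinearMap.id_apply]
    have e : (3 : ℤ) • x = x + x + x := by
      rw [show (3 : ℤ) = 1 + 1 + 1 by norm_num, add_zsmul, add_zsmul, one_zsmul]
    rw [e]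
    exact hy
  have hLfin : Module.Finite ℤ L := by
    rw [hL]
    infer_instance
  have hinj : Function.Injective (LinearMap.codRestrict L ((3 : ℤ) • (LinearMap.id : H →ₗ[ℤ] H)) hmem) := by
    rw [injective_iff_map_eq_zero]
    intro x hx
    have h1 : (3 : ℤ) • x = 0 := by
      have := congrArg Subtype.val hx
      exact this
    exact htf x 3 (by norm_num) h1
  have hN : IsNoetherian ℤ L := inferInstance
  have hNH : IsNoetherian ℤ H := isNoetherian_of_injective _ hinj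
  refine ⟨inferInstance, ?_⟩
  refine (LinearMap.finrank_le_finrank_of_injective hinj).trans ?_
  rw [hL]
  exact LinearMap.finrank_range_le _

/-- a finitely generated group without torsion is generated by `rank` elements -/
theorem gens {H : Type} [AddCommGroup H] [Module.Finite ℤ H]
    (htf : ∀ (x : H) (n : ℤ), n ≠ 0 → n • x = 0 → x = 0) :
    ∃ S : Finset H, S.card = finrank ℤ H ∧ AddSubgroup.closure (S : Set H) = ⊤ := by
  have h1 : Module.IsTorsionFree ℤ H := by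
    rw [Module.isTorsionFree_iff_smul_eq_zero]
    intro n x h
    by_cases hn : n = 0
    · exact Or.inl hn
    · exact Or.inr (htf x n hn h)
  let b := Module.finBasis ℤ H
  refine ⟨Finset.univ.map ⟨b, b.injective⟩, ?_, ?_⟩
  · rw [Finset.card_map, Finset.card_univ, Fintype.card_fin]
  · have h2 := b.span_eq
    rw [Finset.coe_map, Finset.coe_univ, Set.image_univ]
    have h3 := Submodule.span_int_eq_addSubgroupClosure (Set.range b)
    rw [h2] at h3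
    have h4 : (⊤ : Submodule ℤ H).toAddSubgroup = ⊤ := rfl
    rw [h4] at h3
    exact h3.symm

/-- the least number of generators is the rank -/
theorem least {H : Type} [AddCommGroup H] [Module.Finite ℤ H]
    (htf : ∀ (x : H) (n : ℤ), n ≠ 0 → n • x = 0 → x = 0) :
    sInf {n | ∃ S : Finset H, S.card = n ∧ AddSubgroup.closure (S : Set H) = ⊤} =
      finrank ℤ H := by
  obtain ⟨S, h1, h2⟩ := gens htf
  refine le_antisymm (Nat.sInf_le ⟨S, h1, h2⟩) ?_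
  obtain ⟨T, h3, h4⟩ := Nat.sInf_mem (s := {n | ∃ S : Finset H, S.card = n ∧
    AddSubgroup.closure (S : Set H) = ⊤}) ⟨_, S, h1, h2⟩
  rw [← h3]
  have h5 : Submodule.span ℤ (T : Set H) = ⊤ := by
    apply Submodule.toAddSubgroup_injective
    rw [Submodule.span_int_eq_addSubgroupClosure, h4]
    rfl
  have h6 := finrank_span_finset_le_card (R := ℤ) T
  rw [Set.finrank, h5, finrank_top] at h6
  exact h6

/-- `3 m` is not a cube and not twice a cube -/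
lemma not_cube {m : ℕ} (h3 : ¬ 3 ∣ m) (hm : m ≠ 0) (c : ℕ) (hc : c = 1 ∨ c = 2) (x : ℚ) :
    (c : ℚ) * x ^ 3 ≠ ((3 * m : ℕ) : ℚ) := by
  intro h
  have := Fact.mk Nat.prime_three
  have hx : x ≠ 0 := by
    rintro rfl
    rw [zero_pow (by norm_num), mul_zero] at h
    have : ((3 * m : ℕ) : ℚ) ≠ 0 := by exact_mod_cast (by omega : 3 * m ≠ 0)
    exact this h.symm
  have hc0 : (c : ℚ) ≠ 0 := by
    rcases hc with rfl | rfl <;> norm_num
  have hcv : padicValRat 3 (c : ℚ) = 0 := by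
    rw [padicValRat.of_nat]
    rw [padicValNat.eq_zero_of_not_dvd]
    · rfl
    · rcases hc with rfl | rfl <;> norm_num
  have h1 := congrArg (padicValRat 3) h
  rw [padicValRat.mul hc0 (pow_ne_zero _ hx), padicValRat.pow, hcv, padicValRat.of_nat,
    padicValNat.mul (by norm_num) hm, padicValNat.self (by norm_num),
    padicValNat.eq_zero_of_not_dvd h3] at h1
  push_cast at h1
  omega

section
open Pool.Agent.H462.N9.Law (Sq)

lemma sq3 {m : ℕ} (hm : Sq m) : ¬ 3 ∣ m := by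
  intro h
  have := hm.2 3 Nat.prime_three h
  norm_num at this

lemma hno {m : ℕ} (hm : Sq m) (X Y : ℚ) (h : X ^ 3 + Y ^ 3 = ((3 * m : ℕ) : ℚ)) :
    X ≠ 0 ∧ Y ≠ 0 ∧ X ≠ Y := by
  have h3 := sq3 hm
  have hm0 := hm.1.ne_zero
  refine ⟨?_, ?_, ?_⟩
  · rintro rfl
    exact not_cube h3 hm0 1 (Or.inl rfl) Y (by rw [← h]; push_cast; ring)
  · rintro rfl
    exact not_cube h3 hm0 1 (Or.inl rfl) X (by rw [← h]; push_cast; ring)
  · rintro rfl
    exact not_cube h3 hm0 2 (Or.inr rfl) X (by rw [← h]; push_cast; ring)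

lemma cubefree {m : ℕ} (hm : Sq m) (p : ℕ) (hp : p.Prime) : ¬ p ^ 3 ∣ 3 * m := by
  intro h
  have hsq : Squarefree (3 * m) := by
    rw [Nat.squarefree_mul ((Nat.Prime.coprime_iff_not_dvd Nat.prime_three).2 (sq3 hm))]
    exact ⟨Nat.prime_three.squarefree, hm.1⟩
  have h2 : p * p ∣ 3 * m := (Dvd.intro p (by ring)).trans h
  exact hp.one_lt.ne' (Nat.isUnit_iff.1 (hsq p h2))

/-- the curve `y² + 3 m y = x³` -/
lemma eq_E (D : ℕ) : Pool.Agent.Y703.CT.EQ (Pool.Agent.Y703.CT.WD (D : ℤ)) = Wc (D : ℚ) 0 := by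
  unfold Pool.Agent.Y703.CT.EQ Pool.Agent.Y703.CT.WD Wc WeierstrassCurve.map
  simp

theorem rkE {m : ℕ} (hm : Sq m) (h1 : m ≠ 1) {r : ℕ}
    (hr : (Pool.Agent.H462.N9.Law.Spl (3 * m)).ncard = 3 ^ (r + 1)) :
    Module.Finite ℤ (EP ((3 * m : ℕ) : ℚ)) ∧ finrank ℤ (EP ((3 * m : ℕ) : ℚ)) ≤ 2 * r := by
  have h := Pool.Agent.H462.N9.Law.rk_m hm h1 hr
  rw [eq_E] at h
  exact h

/-- the theorem for `X³ + Y³ = 3 m` -/
theorem rkC {m : ℕ} (hm : Sq m) (h1 : m ≠ 1) {r : ℕ}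
    (hr : (Pool.Agent.H462.N9.Law.Spl (3 * m)).ncard = 3 ^ (r + 1)) :
    Module.Finite ℤ (CP ((3 * m : ℕ) : ℚ)) ∧ finrank ℤ (CP ((3 * m : ℕ) : ℚ)) ≤ 2 * r ∧
      ∀ (x : CP ((3 * m : ℕ) : ℚ)) (n : ℤ), n ≠ 0 → n • x = 0 → x = 0 := by
  have hm0 := hm.1.ne_zero
  have hD : ((3 * m : ℕ) : ℚ) ≠ 0 := by exact_mod_cast (by omega : 3 * m ≠ 0)
  have htf : ∀ (x : CP ((3 * m : ℕ) : ℚ)) (n : ℤ), n ≠ 0 → n • x = 0 → x = 0 :=
    fun x n hn h => torsion_free (cubefree hm) (by omega) (fun X Y h => (hno hm X Y h).2.2) hn h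
  obtain ⟨a1, a2⟩ := rkE hm h1 hr
  obtain ⟨b1, b2⟩ := fg_rank (psi hD) (tri_mem hD (hno hm)) htf
  exact ⟨b1, b2.trans a2, htf⟩

/-- the curve `y² = x³ - 432 A²` -/
def cA (A : ℤ) : WeierstrassCurve ℚ := ⟨0, 0, 0, 0, -432 * (A : ℚ) ^ 2⟩

/-- the curves for `D` and `± D n³` are isomorphic -/
theorem scale {D n : ℕ} (hD : D ≠ 0) (hn : n ≠ 0) {A : ℤ} (hA : A.natAbs = D * n ^ 3) :
    Nonempty (CP (D : ℚ) ≃+ (cA A).toAffine.Point) := by
  have hDq : (D : ℚ) ≠ 0 := by exact_mod_cast hD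
  have hnq : (n : ℚ) ≠ 0 := by exact_mod_cast hn
  have hA2 : (A : ℚ) ^ 2 = ((D * n ^ 3 : ℕ) : ℚ) ^ 2 := by
    have h1 : A ^ 2 = ((A.natAbs : ℕ) : ℤ) ^ 2 := (Int.natAbs_sq A).symm
    rw [hA] at h1
    exact_mod_cast h1
  have hΔ : (Wc (0 : ℚ) (-432 * (D : ℚ) ^ 2)).Δ ≠ 0 := by
    rw [disc]
    exact mul_ne_zero (by norm_num) (pow_ne_zero _ (disc_ne hDq))
  have hvr : Pool.Agent.Y700.VR (cA A) (Wc (0 : ℚ) (-432 * (D : ℚ) ^ 2)) (n : ℚ) 0 0 0 := by
    refine ⟨hnq, ?_, ?_, ?_, ?_, ?_⟩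
    · simp [cA, Wc]
    · simp [cA, Wc]
    · simp [cA, Wc]
    · simp [cA, Wc]
    · simp only [cA, Wc]
      rw [hA2]
      push_cast
      ring
  exact ⟨hvr.equiv hΔ⟩

/-- **the theorem for `A = ± 3 m n³`** -/
theorem one_A {m n : ℕ} (hm : Sq m) (h1 : m ≠ 1) (hn : n ≠ 0) {A : ℤ}
    (hA : A.natAbs = 3 * m * n ^ 3) {r : ℕ}
    (hr : (Pool.Agent.H462.N9.Law.Spl (3 * m)).ncard = 3 ^ (r + 1)) :
    Module.Finite ℤ (cA A).toAffine.Point ∧ finrank ℤ (cA A).toAffine.Point ≤ 2 * r ∧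
      (∀ (x : (cA A).toAffine.Point) (n : ℤ), n ≠ 0 → n • x = 0 → x = 0) ∧
      sInf {n | ∃ S : Finset (cA A).toAffine.Point, S.card = n ∧
        AddSubgroup.closure (S : Set (cA A).toAffine.Point) = ⊤} =
          finrank ℤ (cA A).toAffine.Point := by
  have hm0 := hm.1.ne_zero
  obtain ⟨a1, a2, a3⟩ := rkC hm h1 hr
  obtain ⟨φ⟩ := scale (D := 3 * m) (by omega) hn hA
  have b1 : Module.Finite ℤ (cA A).toAffine.Point := Module.Finite.equiv φ.toIntLinearEquiv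
  have b3 : ∀ (x : (cA A).toAffine.Point) (n : ℤ), n ≠ 0 → n • x = 0 → x = 0 := by
    intro x n hn h
    have h2 := a3 (φ.symm x) n hn (by rw [← map_zsmul, h, map_zero])
    rw [← φ.apply_symm_apply x, h2, map_zero]
  refine ⟨b1, ?_, b3, least b3⟩
  rw [← φ.toIntLinearEquiv.finrank_eq]
  exact a2

/-- corank zero: no points -/
theorem none {m n : ℕ} (hm : Sq m) (h1 : m ≠ 1) (hn : n ≠ 0) {A : ℤ}
    (hA : A.natAbs = 3 * m * n ^ 3)
    (hr : (Pool.Agent.H462.N9.Law.Spl (3 * m)).ncard = 3 ^ (0 + 1)) (X Y : ℚ) :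
    X ^ 3 + Y ^ 3 ≠ A := by
  intro h
  obtain ⟨a1, a2, a3, -⟩ := one_A hm h1 hn hA hr
  obtain ⟨S, c1, c2⟩ := gens a3
  have h2 : S = ∅ := by
    rw [← Finset.card_eq_zero, c1]
    omega
  rw [h2, Finset.coe_empty, AddSubgroup.closure_empty] at c2
  have hm0 := hm.1.ne_zero
  have hA0 : (A : ℚ) ≠ 0 := by
    have h3 : A.natAbs ≠ 0 := by
      rw [hA]
      exact mul_ne_zero (by omega) (pow_ne_zero _ hn)
    exact_mod_cast Int.natAbs_ne_zero.1 h3
  obtain ⟨P, hP⟩ := exists_pt hA0 h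
  obtain ⟨P', hP'⟩ : ∃ P' : (cA A).toAffine.Point, P' ≠ 0 := ⟨P, hP.ne_zero⟩
  have h4 : P' ∈ (⊤ : AddSubgroup (cA A).toAffine.Point) := AddSubgroup.mem_top _
  rw [← c2, AddSubgroup.mem_bot] at h4
  exact hP' h4

end

end Pool.Agent.H519.G3
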